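import Pool.Agent.Helper49.NF.Goals

/-!
# NF, packet EJ: total excess weight of a level
-/

set_option autoImplicit false

open Finset

namespace Pool.Agent.Helper24.NF

open Pool.Agent.Helper49.NF
open Pool.Agent.Helper47.SR (Grp mv lev wt Ew W IsInv up dn)

theorem Ew_double {n : ℕ} (G : Grp n) (j : ℕ) :
    Ew G (lev n j) = ∑ γ ∈ (els G).filter (fun γ => γ ≠ 1),
      #((lev n j).filter (fun A => mv γ A = A)) := by
  classical
  unfold Ew wt els
  simp only [Finset.card_filter]
  rw [Finset.sum_comm]
  rw [Finset.sum_filter, Finset.sum_filter]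
  apply Finset.sum_congr rfl
  intro γ _
  by_cases h1 : γ ∈ G
  · by_cases h2 : γ = 1
    · simp [h2]
    · simp [h1, h2]
  · simp [h1]

theorem goal_EJ (h1 : Goal_STB) (h2 : Goal_CYC) : Goal_EJ := by
  intro n K f G hG j
  obtain ⟨hcard, hels, -, hfx, -⟩ := h1 n K f G hG
  have hE : #((els G).filter (fun γ => γ ≠ 1)) ≤ K * n := by
    calc #((els G).filter (fun γ => γ ≠ 1)) ≤ #(els G) := Finset.card_filter_le _ _
      _ = Nat.card G := hels
      _ ≤ K * n := hcard
  have hmem : ∀ γ ∈ (els G).filter (fun γ => γ ≠ 1), fx γ ≤ f := by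
    intro γ hγ
    rw [Finset.mem_filter] at hγ
    refine hG.fix γ ?_ hγ.2
    have := hγ.1
    unfold els at this
    simpa using this
  rw [Ew_double]
  have hcyc : ∑ γ ∈ (els G).filter (fun γ => γ ≠ 1), #((lev n j).filter (fun A => mv γ A = A)) ≤
      ∑ γ ∈ (els G).filter (fun γ => γ ≠ 1), ∑ p ∈ range (j + 1), ∑ r ∈ range (j + 1),
        if p + 2 * r ≤ j then (fx γ).choose p * (n / 2).choose r else 0 :=
    Finset.sum_le_sum fun γ _ => h2 n γ j
  constructor
  · refine hcyc.trans ?_
    rw [Finset.sum_comm]
    unfold Ma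
    rw [Finset.mul_sum]
    apply Finset.sum_le_sum
    intro p _
    rw [Finset.sum_comm, Finset.mul_sum]
    apply Finset.sum_le_sum
    intro r _
    by_cases hpr : p + 2 * r ≤ j
    · simp only [if_pos hpr]
      rw [← Finset.sum_mul]
      have hr : (n / 2).choose r ≤ n ^ r :=
        (Nat.choose_le_pow _ _).trans (Nat.pow_le_pow_left (Nat.div_le_self _ _) _)
      have hp : ∑ γ ∈ (els G).filter (fun γ => γ ≠ 1), (fx γ).choose p ≤ K * n * f ^ (p - 1) := by
        rcases Nat.eq_zero_or_pos p with rfl | hp
        · simpa using hE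
        · calc ∑ γ ∈ (els G).filter (fun γ => γ ≠ 1), (fx γ).choose p
              ≤ ∑ γ ∈ (els G).filter (fun γ => γ ≠ 1), fx γ * f ^ (p - 1) := by
                apply Finset.sum_le_sum
                intro γ hγ
                calc (fx γ).choose p ≤ fx γ ^ p := Nat.choose_le_pow _ _
                  _ = fx γ * fx γ ^ (p - 1) := by
                    rw [← pow_succ']
                    congr 1
                    omega
                  _ ≤ fx γ * f ^ (p - 1) :=
                    Nat.mul_le_mul_left _ (Nat.pow_le_pow_left (hmem γ hγ) _)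
            _ = (∑ γ ∈ (els G).filter (fun γ => γ ≠ 1), fx γ) * f ^ (p - 1) := by
                rw [Finset.sum_mul]
            _ ≤ K * n * f ^ (p - 1) := Nat.mul_le_mul_right _ hfx
      calc (∑ γ ∈ (els G).filter (fun γ => γ ≠ 1), (fx γ).choose p) * (n / 2).choose r
          ≤ (K * n * f ^ (p - 1)) * n ^ r := Nat.mul_le_mul hp hr
        _ = K * n * (f ^ (p - 1) * n ^ r) := by ring
    · simp [hpr]
  · refine hcyc.trans ?_
    calc (∑ γ ∈ (els G).filter (fun γ => γ ≠ 1), ∑ p ∈ range (j + 1), ∑ r ∈ range (j + 1),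
        if p + 2 * r ≤ j then (fx γ).choose p * (n / 2).choose r else 0)
        ≤ ∑ γ ∈ (els G).filter (fun γ => γ ≠ 1), Mb n f j := by
          apply Finset.sum_le_sum
          intro γ hγ
          unfold Mb
          apply Finset.sum_le_sum
          intro p _
          apply Finset.sum_le_sum
          intro r _
          by_cases hpr : p + 2 * r ≤ j
          · simp only [if_pos hpr]
            exact Nat.mul_le_mul_right _ (Nat.choose_le_choose _ (hmem γ hγ))
          · simp [hpr]
      _ = #((els G).filter (fun γ => γ ≠ 1)) * Mb n f j := by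
          rw [Finset.sum_const, smul_eq_mul]
      _ ≤ K * n * Mb n f j := Nat.mul_le_mul_right _ hE

end Pool.Agent.Helper24.NF
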