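import Pool.Agent.Helper49.NF.Goals

/-!
# NF, packet LOG: powers of the logarithm are small
-/

set_option autoImplicit false

open Finset

namespace Pool.Agent.Helper24.NF

open Pool.Agent.Helper49.NF

theorem exists_exp_bound (c k : ℕ) : ∃ l₀ : ℕ, 1 ≤ l₀ ∧ ∀ l ≥ l₀, c * (l + 1) ^ k ≤ 2 ^ (l - 1) := by
  have h := tendsto_pow_const_div_const_pow_of_one_lt k (show (1 : ℝ) < 2 by norm_num)
  have hpos : (0 : ℝ) < 1 / (4 * (c + 1)) := by positivity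
  obtain ⟨N, hN⟩ := Filter.eventually_atTop.mp (h.eventually (gt_mem_nhds hpos))
  refine ⟨N + 1, by omega, ?_⟩
  intro l hl
  have h1 := hN (l + 1) (by omega)
  have h2 : (0 : ℝ) < 2 ^ (l + 1) := by positivity
  rw [div_lt_div_iff₀ h2 (by positivity)] at h1
  have h3 : ((l + 1 : ℕ) : ℝ) ^ k * (4 * (c + 1)) < 2 ^ (l + 1) := by linarith
  have h4 : (l + 1) ^ k * (4 * (c + 1)) < 2 ^ (l + 1) := by exact_mod_cast h3
  have h5 : 2 ^ (l + 1) = 4 * 2 ^ (l - 1) := by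
    have : l + 1 = (l - 1) + 2 := by omega
    rw [this, pow_add]
    have : l - 1 + 2 - 2 = l - 1 := by omega
    ring
  rw [h5] at h4
  have h6 : c * (l + 1) ^ k ≤ (l + 1) ^ k * (c + 1) := by
    rw [Nat.mul_comm c]
    exact Nat.mul_le_mul_left _ (by omega)
  have h7 : (l + 1) ^ k * (4 * (c + 1)) = 4 * ((l + 1) ^ k * (c + 1)) := by ring
  omega

theorem goal_LOG : Goal_LOG := by
  intro c k
  obtain ⟨l₀, hl₀, h⟩ := exists_exp_bound c k
  refine ⟨2 ^ l₀, fun n hn => ?_⟩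
  have hn2 : 2 ≤ n := by
    calc 2 = 2 ^ 1 := by norm_num
      _ ≤ 2 ^ l₀ := Nat.pow_le_pow_right (by norm_num) hl₀
      _ ≤ n := hn
  unfold Lg
  have h1 : n ≤ 2 ^ Nat.clog 2 n := Nat.le_pow_clog (by norm_num) n
  have h2 : l₀ ≤ Nat.clog 2 n := by
    have : 2 ^ l₀ ≤ 2 ^ Nat.clog 2 n := hn.trans h1
    exact (Nat.pow_le_pow_iff_right (by norm_num)).mp this
  have h3 : 2 ^ (Nat.clog 2 n).pred < n := Nat.pow_pred_clog_lt_self (by norm_num) (by omega)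
  calc c * (Nat.clog 2 n + 1) ^ k ≤ 2 ^ (Nat.clog 2 n - 1) := h _ h2
    _ ≤ n := h3.le

end Pool.Agent.Helper24.NF
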